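import Mathlib
import Pool.Agent.R390.MZ.Gap

set_option autoImplicit false

/-!
# Double shuffle relations and all relations: three cases for the gap

Let `g_p` be the number of independent relations between multiple zeta values of weight `p` modulo
the regularized double shuffle relations, and let `D_p` be the dimension of the part of weight `p` of
the algebra of formal multiple zeta values `H^0 / (double shuffle)`.  This algebra is a polynomial ring
(Écalle, Racinet).  Then `g_p = 0` for all `p`; or `g_p = D_(p-n)` for all `p`, for some `n`; or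
`g_p = D_(p-n)` for `p < m` and `g_p ≥ D_(p-n) + D_(p-m) - D_(p-n-m)` for all `p`.  So if all
relations of weight `p` follow from double shuffle relations for infinitely many `p`, then this holds
for all `p`.
-/

open Pool.Agent.R390.MZ

namespace Pool.Agent.Results.MP_154526_nt.GapTrichotomy

/-- Let `D_p = dim H^0_p - dim rds_p` and `g_p = dim ker Z_p - dim rds_p`, where `H^0_p` is the part
of weight `p` of `H^0`, `ker Z_p` the part of weight `p` of the kernel of `Z` on `H^0` and `rds_p` the
span of the regularized double shuffle elements of weight `p`. Assume that `rds_p ⊆ ker Z_p` for all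
`p` (Ihara, Kaneko, Zagier) and that there are real numbers `x_s` with weights `wt s ≥ 1` such that,
for all `p`, there are exactly `D_p` monomials of weight `p` in the `x_s` and their values span the
space of multiple zeta values of weight `p` (Écalle, Racinet). Let `D_p = 0` for `p < 0`. Then one of
the following holds.
(i) `rds_p = ker Z_p` for all `p`.
(ii) There is `n ≥ 1` with `g_p = D_(p-n)` for all `p`, and `rds_p ≠ ker Z_p` for all `p ≥ n + 2`.
(iii) There are `m ≥ n ≥ 1` with `g_p = D_(p-n)` for all `p < m`, with `g_p ≥ D_(p-n)` and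
`g_p ≥ D_(p-n) + D_(p-m) - D_(p-n-m)` for all `p`, and with `rds_p ≠ ker Z_p` for all
`p ≥ n + 2`. -/
theorem result {σ : Type} (wt : σ → ℕ) (x : σ → ℝ) (hwt : ∀ s, 1 ≤ wt s)
    (hI : ∀ p, rds p ≤ kerZ p) (hG : Gens (fun p => (H0 p).map Zmap) fdim wt x) :
    (∀ p, rds p = kerZ p) ∨
    (∃ n, 1 ≤ n ∧ (∀ p, n + 2 ≤ p → rds p ≠ kerZ p) ∧ ∀ p, gap p = sh fdim n p) ∨
    (∃ n m, 1 ≤ n ∧ n ≤ m ∧ (∀ p, n + 2 ≤ p → rds p ≠ kerZ p) ∧
      (∀ p < m, gap p = sh fdim n p) ∧
      ∀ p, sh fdim n p ≤ gap p ∧ sh fdim n p + sh fdim m p ≤ gap p + sh fdim (n + m) p) :=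
  tri_gap hwt hI hG

end Pool.Agent.Results.MP_154526_nt.GapTrichotomy
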