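import Mathlib
import Pool.Agent.R404.WZ.Q

/-!
# MP_154526_nt: small relations between growing numbers of products are stuffle relations

Let `x` be an integral combination of products of multiple zeta values `ζ(a_1 N + b_1, ..., a_r N + b_r)`
with `b_i ≤ J`, where `J` and so the number of the products grows as a power of `N`, with coefficients
of total size at most `2 ^ (N ^ γ)`. If `x = 0`, or `|x|` is smaller than `N ^ (-ε N)`, then the same
combination of the stuffle products of the words is zero.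
-/

set_option autoImplicit false

namespace Pool.Agent.Results.MP_154526_nt.GrowingProducts

/-- `trunc [s_1, ..., s_r] m` is the sum of `∏ n_i ^ (-s_i)` over `m > n_1 > ... > n_r ≥ 1` -/
noncomputable def trunc : List ℕ → ℕ → ℝ
  | [], _ => 1
  | s :: l, m => ∑ j ∈ Finset.Ico 1 m, trunc l j / (j : ℝ) ^ s

/-- the multiple zeta value `ζ(s_1, ..., s_r)`, `s_1` belongs to the largest variable -/
noncomputable def mzv : List ℕ → ℝ
  | [] => 1
  | s :: l => ∑' m : ℕ, trunc l (m + 1) / ((m + 1 : ℕ) : ℝ) ^ s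

/-- admissible indices: `(s_1, ..., s_r)` with `r ≥ 1`, `s_1 ≥ 2` and all `s_i ≥ 1` -/
def AdmissibleIndex : List ℕ → Prop
  | [] => False
  | s :: l => 2 ≤ s ∧ ∀ t ∈ l, 1 ≤ t

/-- the number of arguments `≥ 2` -/
def height (w : List ℕ) : ℕ := w.countP (fun s => decide (2 ≤ s))

/-- the list of the words `y_{k_1} ... y_{k_t}` (written `[k_1, ..., k_t]`) in the stuffle product of
two words -/
def stuffles : List ℕ → List ℕ → List (List ℕ)
  | [], l => [l]
  | i :: k, [] => [i :: k]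
  | i :: k, j :: l => (stuffles k (j :: l)).map (i :: ·) ++ (stuffles (i :: k) l).map (j :: ·) ++
      (stuffles k l).map ((i + j) :: ·)
termination_by k l => k.length + l.length

/-- the list of the words in the stuffle product of several words -/
def stuffleAll : List (List ℕ) → List (List ℕ)
  | [] => [[]]
  | u :: M => (stuffleAll M).flatMap (stuffles u)

/-- words; the letter `(a, b)` stands for the argument `a N + b` -/
abbrev Word := List (ℕ × ℕ)

/-- the index `(a_1 N + b_1, ..., a_r N + b_r)` of a word -/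
def index (N : ℕ) (w : Word) : List ℕ := w.map fun y => y.1 * N + y.2

/-- the sum `a_1 + ... + a_r` -/
def size (w : Word) : ℕ := (w.map Prod.fst).sum

/-- products of words `(a_1, b_1) ... (a_r, b_r)` with `r ≥ 1`, `a_i ≥ 1`, `b_i ≤ J`, the sum of all
`a_i` being at most `D` -/
def Near (D J : ℕ) (M : List Word) : Prop :=
  (∀ w ∈ M, w ≠ [] ∧ ∀ y ∈ w, 1 ≤ y.1 ∧ y.2 ≤ J) ∧ (M.map size).sum ≤ D

lemma trunc_eq (w : List ℕ) : ∀ m, trunc w m = Pool.Agent.Y760.ZG.hr w m := by
  induction w with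
  | nil => intro m; rw [trunc, Pool.Agent.Y760.ZG.hr_nil]
  | cons s w ih =>
    intro m
    rw [trunc, Pool.Agent.Y760.ZG.hr_cons]
    exact Finset.sum_congr rfl fun j _ => by rw [ih]

lemma mzv_eq : mzv = Pool.Agent.Y760.ZG.mz := by
  funext w
  cases w with
  | nil => rw [mzv, Pool.Agent.Y760.ZG.mz]
  | cons s w =>
    rw [mzv, Pool.Agent.Y760.ZG.mz]
    exact tsum_congr fun m => by rw [trunc_eq]

lemma adm_iff (u : List ℕ) : Pool.Agent.Y777.AM.St.Ad u ↔ AdmissibleIndex u := by
  cases u with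
  | nil => exact Iff.rfl
  | cons s l => exact Iff.rfl

lemma adm_small {u : List ℕ} (h : AdmissibleIndex u) :
    (∀ m ∈ u, 1 ≤ m) ∧ ∀ x ∈ u.head?, 2 ≤ x := by
  cases u with
  | nil => exact h.elim
  | cons s l =>
    refine ⟨fun m hm => ?_, fun x hx => ?_⟩
    · rcases List.mem_cons.1 hm with rfl | hm
      · exact le_trans (by norm_num) h.1
      · exact h.2 m hm
    · rw [List.head?_cons, Option.mem_def, Option.some.injEq] at hx
      rw [← hx]
      exact h.1

lemma stuffles_eq (u v : List ℕ) : stuffles u v = Pool.Agent.Y760.ZF.sti u v := by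
  induction u, v using Pool.Agent.Y760.ZF.sti.induct with
  | case1 v => rw [stuffles, Pool.Agent.Y760.ZF.sti]
  | case2 x u => rw [stuffles, Pool.Agent.Y760.ZF.sti]
  | case3 x u y v ih1 ih2 ih3 => rw [stuffles, Pool.Agent.Y760.ZF.sti, ih1, ih2, ih3]

lemma stuffleAll_eq (M : List (List ℕ)) : stuffleAll M = Pool.Agent.Y760.ZF.stil M := by
  induction M with
  | nil => rw [stuffleAll, Pool.Agent.Y760.ZF.stil]
  | cons u M ih =>
    rw [stuffleAll, Pool.Agent.Y760.ZF.stil, ih]
    exact congrArg (fun f => (Pool.Agent.Y760.ZF.stil M).flatMap f)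
      (funext fun v => stuffles_eq u v)

/-- Let `D` be a natural number and `0 < θ`, `(D + 1) θ < 1`, `γ + D θ < 1`, `D θ < ε`, and let `κ`, `C`
be real. For all large `N`, all `J ≤ N ^ θ`, all finite sets `T` of products as in the definition of
`Near`, all integers `c_M` (`M ∈ T`) with `∑ |c_M| ≤ 2 ^ (N ^ γ)`, all finite sets `H` of admissible
indices of weight at most `κ N` with at least `ε N` arguments `≥ 2` and all real `b_h` with
`|b_h| ≤ C ^ N`: if `|∑_T c_M ∏_{w ∈ M} ζ(index N w) - ∑_H b_h ζ(h)| ≤ N ^ (-ε N)`, then for every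
word `u` the coefficient of `u` in the combination of the stuffle products with the coefficients
`c_M` is zero. -/
theorem result (D : ℕ) (θ γ ε κ C : ℝ) (hθ : 0 < θ) (hθD : (D + 1) * θ < 1)
    (hγ : γ + D * θ < 1) (hε : D * θ < ε) :
    ∃ N0 : ℕ, ∀ N : ℕ, N0 ≤ N → ∀ J : ℕ, (J : ℝ) ≤ (N : ℝ) ^ θ →
      ∀ T : Finset (List Word), (∀ M ∈ T, Near D J M) →
      ∀ c : List Word → ℤ, ∑ M ∈ T, |(c M : ℝ)| ≤ (2 : ℝ) ^ ((N : ℝ) ^ γ) →
      ∀ H : Finset (List ℕ),
      (∀ h ∈ H, AdmissibleIndex h ∧ (h.sum : ℝ) ≤ κ * N ∧ ε * N ≤ height h) →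
      ∀ b : List ℕ → ℝ, (∀ h ∈ H, |b h| ≤ C ^ N) →
      |∑ M ∈ T, (c M : ℝ) * (M.map fun w => mzv (index N w)).prod - ∑ h ∈ H, b h * mzv h| ≤
        ((N : ℝ) ^ (ε * N))⁻¹ →
      ∀ u : List ℕ, ∑ M ∈ T, c M * ((stuffleAll (M.map (index N))).count u : ℤ) = 0 := by
  rw [mzv_eq]
  obtain ⟨N0, h0⟩ := Pool.Agent.R404.WZ.expansions D θ γ ε κ C hθ hθD hγ hε
  refine ⟨N0, fun N hN J hJ T hT c hc H hH b hb hs u => ?_⟩
  simp only [stuffleAll_eq]
  exact h0 N hN J hJ T hT c hc H (fun h hh => ⟨(adm_small (hH h hh).1).1,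
    (adm_small (hH h hh).1).2, (hH h hh).2.1, (hH h hh).2.2⟩) b hb hs u

end Pool.Agent.Results.MP_154526_nt.GrowingProducts
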