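import Mathlib
import Pool.Agent.R404.MZ.Box

/-!
# Left multiplication by powers of `x` and the kernel of `Z`

Let `f` be a nonzero combination, with real coefficients, of words in `x 𝔥 y` of length `p` with at
most `r + 1` letters `y`. Then `Z(x ^ n f) = 0` for at most `(p - 1) p ^ r - 1` numbers `n ≥ 0`. In
particular `x ^ n f` is a combination of regularized double shuffle elements for at most that many
`n`.
-/

set_option autoImplicit false

namespace Pool.Agent.Results.MP_154526_nt.PowersOfX

/-- `trunc [s_1, ..., s_r] m` is the sum of `∏ k_i ^ (-s_i)` over `m > k_1 > ... > k_r ≥ 1` -/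
noncomputable def trunc : List ℕ → ℕ → ℝ
  | [], _ => 1
  | s :: l, m => ∑ j ∈ Finset.Ico 1 m, trunc l j / (j : ℝ) ^ s

/-- the multiple zeta value `ζ(s_1, ..., s_r)`, `s_1` belongs to the largest variable -/
noncomputable def mzv : List ℕ → ℝ
  | [] => 1
  | s :: l => ∑' k : ℕ, trunc l (k + 1) / ((k + 1 : ℕ) : ℝ) ^ s

/-- `index 0 w` is the list of the `k_i` for the word `w = y_{k_1} ... y_{k_t}`, where
`y_k = x ^ (k - 1) y`, `x = false`, `y = true` -/
def index : ℕ → List Bool → List ℕ
  | _, [] => []
  | c, true :: u => (c + 1) :: index 0 u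
  | c, false :: u => index (c + 1) u

/-- the words in `x 𝔥 y` -/
def Convergent (w : List Bool) : Prop := w.head? = some false ∧ w.getLast? = some true

/-- the linear map `Z`, on real combinations of words -/
noncomputable def Z (f : List Bool →₀ ℝ) : ℝ := f.sum fun w c => c * mzv (index 0 w)

/-- the product `x ^ n f` -/
noncomputable def mulX (n : ℕ) (f : List Bool →₀ ℝ) : List Bool →₀ ℝ :=
  f.mapDomain fun w => List.replicate n false ++ w

lemma trunc_eq (w : List ℕ) : ∀ m, trunc w m = Pool.Agent.Y760.ZG.hr w m := by
  induction w with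
  | nil => intro m; rw [trunc, Pool.Agent.Y760.ZG.hr_nil]
  | cons s w ih =>
    intro m
    rw [trunc, Pool.Agent.Y760.ZG.hr_cons]
    exact Finset.sum_congr rfl fun j _ => by rw [ih]

lemma index_rep (n : ℕ) (w : List Bool) : ∀ c, index c (List.replicate n false ++ w) =
    index (c + n) w := by
  induction n with
  | zero => intro c; simp
  | succ n ih =>
    intro c
    rw [List.replicate_succ, List.cons_append, index, ih]
    congr 1
    ring

lemma index_shift (w : List Bool) (hw : true ∈ w) :
    ∃ a k, 1 ≤ a ∧ ∀ c, index c w = (c + a) :: k := by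
  induction w with
  | nil => simp at hw
  | cons b u ih =>
    cases b with
    | true => exact ⟨1, index 0 u, le_rfl, fun c => by rw [index]⟩
    | false =>
      obtain ⟨a, k, ha, h⟩ := ih (by simpa using hw)
      exact ⟨a + 1, k, by omega, fun c => by
        rw [index, h]
        congr 1
        ring⟩

/-- the word of an index -/
def word : List ℕ → List Bool
  | [] => []
  | k :: l => List.replicate (k - 1) false ++ true :: word l

lemma getLast_cons {b : Bool} {u : List Bool} (h : (b :: u).getLast? = some true) :
    (u = [] ∧ b = true) ∨ u.getLast? = some true := by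
  cases u with
  | nil => simpa using h
  | cons a u => right; simpa using h

lemma word_index (w : List Bool) : ∀ c, w.getLast? = some true →
    word (index c w) = List.replicate c false ++ w := by
  induction w with
  | nil => intro c h; simp at h
  | cons b u ih =>
    intro c h
    have h1 := getLast_cons h
    cases b with
    | true =>
      rw [index, word, Nat.add_sub_cancel]
      congr 2
      rcases h1 with ⟨h1, _⟩ | h1
      · rw [h1, index, word]
      · rw [ih 0 h1]
        simp
    | false =>
      rcases h1 with ⟨_, h1⟩ | h1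
      · simp at h1
      · rw [index, ih (c + 1) h1, List.replicate_succ']
        simp

lemma index_sum (w : List Bool) : ∀ c, w.getLast? = some true →
    (index c w).sum = c + w.length := by
  induction w with
  | nil => intro c h; simp at h
  | cons b u ih =>
    intro c h
    have h1 := getLast_cons h
    cases b with
    | true =>
      rw [index, List.sum_cons, List.length_cons]
      rcases h1 with ⟨h1, _⟩ | h1
      · rw [h1, index]
        simp
      · rw [ih 0 h1]
        ring
    | false =>
      rcases h1 with ⟨_, h1⟩ | h1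
      · simp at h1
      · rw [index, ih (c + 1) h1, List.length_cons]
        ring

lemma index_length (w : List Bool) : ∀ c, (index c w).length = w.count true := by
  induction w with
  | nil => intro c; rw [index]; rfl
  | cons b u ih =>
    intro c
    cases b with
    | true => rw [index, List.length_cons, ih 0, List.count_cons_self]
    | false => rw [index, ih (c + 1), List.count_cons_of_ne (by simp)]

lemma index_pos (w : List Bool) : ∀ c, ∀ x ∈ index c w, 1 ≤ x := by
  induction w with
  | nil => intro c x hx; rw [index] at hx; simp at hx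
  | cons b u ih =>
    intro c x hx
    cases b with
    | true =>
      rw [index, List.mem_cons] at hx
      rcases hx with rfl | hx
      · omega
      · exact ih 0 x hx
    | false =>
      rw [index] at hx
      exact ih (c + 1) x hx

/-- the data of a convergent word -/
lemma index_conv {w : List Bool} (hw : Convergent w) : ∃ a k, index 0 w = a :: k ∧ 2 ≤ a ∧
    (∀ n, index 0 (List.replicate n false ++ w) = (n + a) :: k) ∧ a + k.sum = w.length ∧
    (∀ x ∈ k, 1 ≤ x) ∧ k.length + 1 = w.count true := by
  obtain ⟨h1, h2⟩ := hw
  cases w with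
  | nil => simp at h1
  | cons b u =>
    have hb : b = false := by simpa using h1
    subst hb
    have h3 : u.getLast? = some true := by
      rcases getLast_cons h2 with ⟨_, h⟩ | h
      · simp at h
      · exact h
    have h4 : true ∈ u := List.mem_of_getLast? h3
    obtain ⟨a, k, ha, hk⟩ := index_shift u h4
    have e1 : index 0 (false :: u) = (1 + a) :: k := by
      rw [index, hk]
    have e2 := index_sum (false :: u) 0 h2
    have e3 := index_length (false :: u) 0
    have e4 := index_pos (false :: u) 0
    rw [e1] at e2 e3 e4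
    refine ⟨1 + a, k, e1, by omega, fun n => ?_, ?_, fun x hx => e4 x (List.mem_cons_of_mem _ hx),
      ?_⟩
    · rw [index_rep, zero_add, index, hk]
      congr 1
      ring
    · rw [List.sum_cons, zero_add] at e2
      exact e2
    · rw [List.length_cons] at e3
      exact e3

/-- **Theorem.** Let `f` be a nonzero real combination of words in `x 𝔥 y` of length `p` with at most
`r + 1` letters `y`. Then `Z(x ^ n f) = 0` for at most `(p - 1) p ^ r - 1` numbers `n ≥ 0`. -/
theorem result (p r : ℕ) (f : List Bool →₀ ℝ) (hf : f ≠ 0)
    (hw : ∀ w ∈ f.support, Convergent w ∧ w.length = p ∧ w.count true ≤ r + 1) :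
    {n : ℕ | Z (mulX n f) = 0}.encard ≤ (((p - 1) * p ^ r - 1 : ℕ) : ℕ∞) := by
  classical
  have hne : f.support.Nonempty := Finsupp.support_nonempty_iff.2 hf
  have hp2 : 2 ≤ p := by
    obtain ⟨w, h⟩ := hne
    obtain ⟨a, k, h1, h2, h3, h4, h5, h6⟩ := index_conv (hw w h).1
    rw [(hw w h).2.1] at h4
    omega
  have hZ : ∀ n, Z (mulX n f) = ∑ w : f.support, f w * Pool.Agent.R404.MZ.zt
      ((n : ℝ) + (((index 0 (w : List Bool)).headI : ℤ) : ℝ)) (index 0 (w : List Bool)).tail := by
    intro n
    have hinj : Function.Injective fun w : List Bool => List.replicate n false ++ w :=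
      List.append_right_injective _
    unfold Z mulX
    rw [Finsupp.sum_mapDomain_index_inj hinj, Finsupp.sum,
      ← Finset.sum_coe_sort f.support fun w => f w * mzv (index 0 (List.replicate n false ++ w))]
    refine Finset.sum_congr rfl fun w _ => ?_
    obtain ⟨a, k, h1, h2, h3, h4, h5, h6⟩ := index_conv (hw w w.2).1
    rw [h3 n, h1, List.tail_cons, mzv, Pool.Agent.R404.MZ.zt]
    congr 1
    refine tsum_congr fun m => ?_
    rw [trunc_eq, ← Real.rpow_natCast, Nat.cast_add]
    simp
  by_contra hcon
  rw [not_le] at hcon
  have h1 : (((p - 1) * p ^ r - 1 + 1 : ℕ) : ℕ∞) ≤ {n : ℕ | Z (mulX n f) = 0}.encard := by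
    have := Order.add_one_le_of_lt hcon
    exact_mod_cast this
  obtain ⟨t, ht, h2⟩ := Set.exists_subset_encard_eq h1
  have hfin : t.Finite := Set.finite_of_encard_eq_coe h2
  rw [hfin.encard_eq_coe_toFinset_card] at h2
  have h4 : hfin.toFinset.card = (p - 1) * p ^ r - 1 + 1 := by exact_mod_cast h2
  have h5 := Pool.Agent.R404.MZ.box_zeros (p - 2) r (p - 2)
    (fun w : f.support => ((index 0 (w : List Bool)).headI : ℤ))
    (fun w => (index 0 (w : List Bool)).tail) (fun w => f w)
    (fun w => by
      obtain ⟨a, k, e1, e2, e3, e4, e5, e6⟩ := index_conv (hw w w.2).1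
      rw [e1, List.tail_cons]
      have e7 := (hw w w.2).2
      refine ⟨by omega, fun x hx => ⟨e5 x hx, ?_⟩⟩
      have e8 := List.le_sum_of_mem hx
      omega)
    (fun w v => by
      obtain ⟨a, k, e1, e2, e3, e4, e5, e6⟩ := index_conv (hw w w.2).1
      obtain ⟨a', k', e1', e2', e3', e4', e5', e6'⟩ := index_conv (hw v v.2).1
      have e7 := (hw w w.2).2
      have e7' := (hw v v.2).2
      rw [e1, e1']
      simp only [List.headI_cons]
      omega)
    (fun w v h => by
      obtain ⟨a, k, e1, e2, e3, e4, e5, e6⟩ := index_conv (hw w w.2).1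
      obtain ⟨a', k', e1', e2', e3', e4', e5', e6'⟩ := index_conv (hw v v.2).1
      simp only [e1, e1', List.headI_cons, List.tail_cons, Prod.mk.injEq, Nat.cast_inj] at h
      apply Subtype.ext
      have g1 := word_index (w : List Bool) 0 (hw w w.2).1.2
      have g2 := word_index (v : List Bool) 0 (hw v v.2).1.2
      rw [e1, h.1, h.2, ← e1', g2] at g1
      simpa using g1.symm)
    (fun h => by
      obtain ⟨w, hw0⟩ := hne
      exact (Finsupp.mem_support_iff.1 hw0) (congrFun h ⟨w, hw0⟩))
    (hfin.toFinset.image fun n : ℕ => (n : ℝ)) (fun s hs => by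
      obtain ⟨n, hn, rfl⟩ := Finset.mem_image.1 hs
      have h6 : Z (mulX n f) = 0 := ht (hfin.mem_toFinset.1 hn)
      refine ⟨fun w => ?_, by rw [← h6, hZ n]⟩
      obtain ⟨a, k, e1, e2, e3, e4, e5, e6⟩ := index_conv (hw w w.2).1
      rw [e1, List.headI_cons]
      have e7 : (2 : ℝ) ≤ ((a : ℤ) : ℝ) := by exact_mod_cast e2
      have e8 : (0 : ℝ) ≤ n := Nat.cast_nonneg n
      linarith)
  rw [Finset.card_image_of_injective _ Nat.cast_injective, h4] at h5
  have h6 : p - 2 + 1 = p - 1 := by omega
  have h7 : p - 2 + 2 = p := by omega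
  rw [h6, h7] at h5
  have h8 : 1 ≤ (p - 1) * p ^ r := Nat.one_le_iff_ne_zero.2 (by
    have : p - 1 ≠ 0 := by omega
    have : p ≠ 0 := by omega
    positivity)
  omega

end Pool.Agent.Results.MP_154526_nt.PowersOfX
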