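import Mathlib
import Pool.Agent.R473.DW.Gap

/-!
# Relations with `S`-unit coefficients between products of MZVs are stuffle relations: the gap
-/

set_option autoImplicit false

namespace Pool.Agent.Results.MP_154526_nt.StuffleGap

open Pool.Agent.R473.DW Pool.Agent.Y760.RT Pool.Agent.TH507.ZS

/-- `trunc [s_1, ..., s_r] m` is the sum of `∏ k_i ^ (-s_i)` over `m > k_1 > ... > k_r ≥ 1` -/
noncomputable def trunc : List ℕ → ℕ → ℝ
  | [], _ => 1
  | s :: l, m => ∑ j ∈ Finset.Ico 1 m, trunc l j / (j : ℝ) ^ s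

/-- the multiple zeta value `ζ(s_1, ..., s_r) = Z(y_{s_1} ... y_{s_r})` -/
noncomputable def mzv : List ℕ → ℝ
  | [] => 1
  | s :: l => ∑' k : ℕ, trunc l (k + 1) / ((k + 1 : ℕ) : ℝ) ^ s

/-- lists of letters `(a, b)`, `a ≥ 1`, `b ≥ 0`; at `n` such a list
`(a_1, b_1), …, (a_r, b_r)` stands for the word `y_{a_1 n + b_1} ⋯ y_{a_r n + b_r}` -/
abbrev Word : Type := List (ℕ+ × ℕ)

/-- `Z` of the word at `n` -/
noncomputable def value (n : ℕ) (w : Word) : ℝ := mzv (w.map fun x => (x.1 : ℕ) * n + x.2)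

/-- the stuffle product of two words, as a list of words: `y_k` and `y_l` merge to `y_{k + l}` -/
def stuffle : Word → Word → List Word
  | [], v => [v]
  | x :: u, [] => [x :: u]
  | x :: u, y :: v => (stuffle u (y :: v)).map (x :: ·) ++ (stuffle (x :: u) v).map (y :: ·) ++
      (stuffle u v).map ((x + y) :: ·)
termination_by u v => u.length + v.length

/-- the stuffle product of several words -/
def stuffles : List Word → List Word
  | [] => [[]]
  | u :: M => (stuffles M).flatMap (stuffle u)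

/-- the coefficient of the word `w` in the stuffle expansion of the combination `∑ D_s M_s` of the
products `M_s` of words -/
noncomputable def coeff {m : ℕ} (M : Fin m → List Word) (D : Fin m → ℚ) (w : Word) : ℚ :=
  ∑ s, (((stuffles (M s)).countP (· = w) : ℕ) : ℚ) * D s

/-- `D` is a sum of `R` terms `a ∏ p ^ k(p)` over `p ∈ S`, with integers `|a| ≤ R` and integers
`|k(p)| ≤ X` -/
def SUnitSum (S : Finset ℕ) (R : ℕ) (X : ℝ) (D : ℚ) : Prop :=
  ∃ (a : Fin R → ℤ) (k : Fin R → ℕ → ℤ), (∀ r, |a r| ≤ R) ∧ (∀ r, ∀ p ∈ S, |(k r p : ℝ)| ≤ X) ∧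
    D = ∑ r, (a r : ℚ) * ∏ p ∈ S, (p : ℚ) ^ k r p

/-- **Result.** Let `M_1, …, M_m` be products of words, not of empty words only. For every finite
set `S` of primes there is `K ≥ 2` such that for all `R`, `C` and `B > 1` and all large `n` the
following holds for all `D_1, …, D_m` which are sums of at most `R` `S`-units of height exponential
in `C n`, and all integers `p`. Let `E_w` be the coefficients of the stuffle expansion of
`D_1 M_1 + … + D_m M_m`, and let `x` be the value of this combination, the sum of `D_s` times the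
product of the multiple zeta values of the words of `M_s` at `n`.
(1) `|x - p| > B ^ (-n) min(1, |E_w| K ^ (-n))` for every `w` with `E_w ≠ 0`.
(2) If `x = p` then all `E_w` and `p` vanish, so the relation is the combination with the
coefficients `D_s` of the stuffle relations between `M_s` and its expansion. -/
theorem result (m : ℕ) (M : Fin m → List Word) (hM : ∀ s, ∃ u ∈ M s, u ≠ []) (S : Finset ℕ)
    (hS : ∀ p ∈ S, p.Prime) : ∃ K : ℕ, 2 ≤ K ∧ ∀ (R : ℕ) (C B : ℝ), 1 < B →
      ∃ n0 : ℕ, ∀ n : ℕ, n0 ≤ n → ∀ D : Fin m → ℚ, (∀ s, SUnitSum S R (C * n) (D s)) →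
      ∀ p : ℤ,
      (∀ w, coeff M D w ≠ 0 → (B ^ n)⁻¹ * min 1 (|(coeff M D w : ℝ)| / (K : ℝ) ^ n) <
        |∑ s, (D s : ℝ) * ((M s).map (value n)).prod - p|) ∧
      (∑ s, (D s : ℝ) * ((M s).map (value n)).prod = p → (∀ w, coeff M D w = 0) ∧ p = 0) := by
  classical
  have e1 : ∀ l m, trunc l m = Pool.Agent.TH507.WD.hr l m := by
    intro l
    induction l with
    | nil => intro m; rw [trunc, Pool.Agent.TH507.WD.hr]
    | cons s l ih =>
      intro m
      rw [trunc, Pool.Agent.TH507.WD.hr]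
      exact Finset.sum_congr rfl fun j _ => by rw [ih]
  have e2 : ∀ l, mzv l = Pool.Agent.TH507.WD.mz l := by
    intro l
    cases l with
    | nil => rw [mzv, Pool.Agent.TH507.WD.mz]
    | cons s l =>
      rw [mzv, Pool.Agent.TH507.WD.mz]
      exact tsum_congr fun k => by rw [e1]
  have e3 : ∀ n, value n = fun u => Pool.Agent.TH507.WD.mz (Pool.Agent.TH507.WD.ar n u) := by
    intro n
    funext u
    rw [value, e2, Pool.Agent.TH507.WD.ar]
  have e4 : ∀ u v, stuffle u v = Pool.Agent.TH507.WD.st u v := by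
    intro u v
    induction u, v using Pool.Agent.TH507.WD.st.induct with
    | case1 v => rw [stuffle, Pool.Agent.TH507.WD.st]
    | case2 x u => rw [stuffle, Pool.Agent.TH507.WD.st]
    | case3 x u y v ih1 ih2 ih3 => rw [stuffle, Pool.Agent.TH507.WD.st, ih1, ih2, ih3]
  have e5 : ∀ L, stuffles L = Pool.Agent.TH507.WD.stl L := by
    intro L
    induction L with
    | nil => rw [stuffles, Pool.Agent.TH507.WD.stl]
    | cons u L ih =>
      rw [stuffles, Pool.Agent.TH507.WD.stl, ih]
      congr 1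
      funext v
      exact e4 u v
  have e6 : ∀ D w, coeff M D w = Ecoef M D w := by
    intro D w
    rw [coeff, Ecoef]
    simp only [e5]
  obtain ⟨K, hK, hmain⟩ := gap M hM hS
  refine ⟨K, hK, fun R C B hB => ?_⟩
  obtain ⟨n0, hn0⟩ := hmain R C B hB
  refine ⟨n0 + 2, fun n hn D hD p => ?_⟩
  have h1 := hn0 n (by omega) D hD p
  simp only [e6, e3]
  refine ⟨h1, fun hx => ?_⟩
  have h2 : ∀ w, Ecoef M D w = 0 := by
    intro w
    by_contra hw
    have h3 := h1 w hw
    rw [hx, sub_self, abs_zero] at h3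
    have hB0 : (0 : ℝ) < B ^ n := by positivity
    have hK0 : (0 : ℝ) < (K : ℝ) ^ n := by
      have : (0 : ℝ) < K := by exact_mod_cast (by omega : 0 < K)
      positivity
    have h4 : 0 ≤ (B ^ n)⁻¹ * min 1 (|(Ecoef M D w : ℝ)| / (K : ℝ) ^ n) := by positivity
    linarith
  refine ⟨h2, ?_⟩
  have h3 := form_eq (n := n) (by omega) M D
    (Λ := Finset.univ.biUnion fun s => (Pool.Agent.TH507.WD.stl (M s)).toFinset)
    fun s w hw => Finset.mem_biUnion.2 ⟨s, Finset.mem_univ _, List.mem_toFinset.2 hw⟩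
  rw [hx] at h3
  simp only [h2, Rat.cast_zero, zero_mul, Finset.sum_const_zero] at h3
  exact_mod_cast h3

end Pool.Agent.Results.MP_154526_nt.StuffleGap
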